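import Pool.Agent.helper54.MZ.Spec1
import Pool.Agent.helper30.MP.TR
import Pool.Agent.helper6.MP.ROT

/-!
# Project mz (MP_af9036_an), module DYE: disc data for every flat disc
-/

set_option autoImplicit false

open Complex Metric Set Filter Topology MeasureTheory

noncomputable section

namespace MZS

open MPS

theorem DYE_nat_mono {k : ℕ} [NeZero k] {b g : ZMod k → ℂ} {χ : ℂ → ℂ} {Ω Ω' : Set ℂ}
    (h : IsNat b g χ Ω) (hs : Ω' ⊆ Ω) : IsNat b g χ Ω' :=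
  ⟨h.diff.mono hs, fun w hw => h.av w (hs hw), fun w hw => h.eq w (hs hw)⟩

theorem DYE_ls_mono {n : ℕ} {c : ℂ} {k : ℕ} [NeZero k] {b g : ZMod k → ℂ} {G : ℕ → ℂ → ℂ}
    {Ω Ω' : Set ℂ} {Q : ℕ} (h : LevSys n c b g G Ω Q) (hs : Ω' ⊆ Ω) : LevSys n c b g G Ω' Q :=
  ⟨DYE_nat_mono h.nat0 hs, fun q hq => (h.diff q hq).mono hs, fun q hq w hw => h.rel q hq w (hs hw)⟩

theorem DYE_core (hPH2 : PH2_stmt) (hP2A : P2A_stmt) (hPT2 : PT2_stmt) (hLEA : LEA_stmt)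
    (hLEI : LEI_stmt) (n k : ℕ) [NeZero k] (c : ℂ) (b g : ZMod k → ℂ) (ψ : ZMod k → ℂ → ℂ)
    (R ε y ρ₁ : ℝ) (χ : ℂ → ℂ) (G1 : ℕ → ℂ → ℂ) (ps : ℕ) (P : ℂ → ℂ)
    (hsu2 : SU2 n k c b g ψ R ε y ρ₁ χ G1 ps) (hε : ε ≤ ρ₁ ^ 2 / 4 ^ 200)
    (pd : DifferentiableOn ℂ P (ball 0 (Real.exp (-(4 * (ρ₁ / 64))))))
    (pb : ∀ u ∈ ball (0 : ℂ) (Real.exp (-(4 * (ρ₁ / 64)))), ‖P u‖ ≤ (ρ₁ / 64) / 32 ∧
      ‖u * deriv P u‖ ≤ 1 / 4)
    (pt : ∀ w ∈ HP (4 * (ρ₁ / 64)), (1 + Complex.exp w * deriv P (Complex.exp w)) ^ 2 =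
      tau b g (GW G1) k w) :
    ∃ (G : ℕ → ℂ → ℂ) (Φ : ℂ → ℂ), Dy n c b g ρ₁ G1 P y χ G Φ := by
  obtain ⟨r, G, hH⟩ := hPH2 n k c b g ψ R ε y ρ₁ χ G1 ps hsu2 hε
  have hsys := hH.sys
  have hρ : 0 < ρ₁ := hsu2.r0
  have hr34 : 3 * ρ₁ / 4 < r := hsys.low 0 (Nat.zero_le _)
  have hk1 : 1 ≤ k := le_trans (by norm_num) hsu2.su.hk
  have hρ2 : 0 < ρ₁ ^ 2 := by positivity
  obtain ⟨x, hx⟩ : ∃ x : ℂ, x = (y : ℂ) * I := ⟨_, rfl⟩
  obtain ⟨δ, hδ⟩ : ∃ δ : ℝ, δ = ρ₁ / 64 := ⟨_, rfl⟩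
  have hδ0 : 0 < δ := by rw [hδ]; positivity
  obtain ⟨hagree, -, -, hLS, -, -, -⟩ := hP2A n k c b g ψ R ε y ρ₁ χ G1 ps (fun _ => r) G k hH
  have hLSk : LevSys n c b g G (ball ((y : ℂ) * I) r) k := hLS k le_rfl
  obtain ⟨-, -, -, hτd, -, -⟩ := hLEA n k c b g G (ball ((y : ℂ) * I) r) k hsu2.su.hn hsu2.su.cyc
    isOpen_ball hLSk
  obtain ⟨-, hτ0, -, -, -, -⟩ := hLEI n k c b g G (ball ((y : ℂ) * I) r) k hsu2.su.hn hsu2.su.cyc
    isOpen_ball hLSk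
  rw [← hδ] at pd pb pt
  -- bounds
  have hη : 1300 * ε / (ρ₁ / 4) ^ 2 ≤ 1 / 10 ^ 5 := by
    calc 1300 * ε / (ρ₁ / 4) ^ 2 ≤ 1300 * (ρ₁ ^ 2 / 4 ^ 200) / (ρ₁ / 4) ^ 2 := by gcongr
      _ = 1300 * 16 / 4 ^ 200 := by field_simp; norm_num
      _ ≤ 1 / 10 ^ 5 := by norm_num
  have hlev0 : ∀ q w, 0 ≤ lev n c b g G q w := fun q w => by
    unfold lev
    positivity
  have hD2 : ball ((y : ℂ) * I) (ρ₁ / 2) ⊆ ball ((y : ℂ) * I) r := ball_subset_ball (by linarith)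
  have hbd : ∀ w ∈ ball ((y : ℂ) * I) (ρ₁ / 2), ∀ q ≤ k, ‖tau b g G q w - 1‖ ≤ 1 / 10 ^ 5 ∧
      (1 ≤ q → lev n c b g G q w ≤ 1 / 10 ^ 5) := by
    intro w hw q hq
    rcases Nat.eq_zero_or_pos q with rfl | hq0
    · rw [hτ0 w (hD2 hw)]
      refine ⟨by norm_num, fun h => absurd h (by norm_num)⟩
    · have hw' := hw
      rw [mem_ball, dist_eq_norm] at hw'
      obtain ⟨hb1, hb2⟩ := hPT2 n k c b g ψ R ε y ρ₁ χ G1 ps (fun _ => r) G k hH q hq0 hq w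
        (ρ₁ / 4) (by positivity) (by
          show ‖w - (y : ℂ) * I‖ + ρ₁ / 4 ≤ r
          linarith)
      refine ⟨(hb2.trans hb1).trans hη, fun _ => ?_⟩
      have h1 : lev n c b g G q w ≤ ∑ q ∈ Finset.Icc 1 q, lev n c b g G q w :=
        Finset.single_le_sum (f := fun q => lev n c b g G q w) (fun p _ => hlev0 p w)
          (Finset.mem_Icc.2 ⟨hq0, le_rfl⟩)
      exact (h1.trans hb1).trans hη
  have hτ1 : ∀ w ∈ ball ((y : ℂ) * I) (ρ₁ / 2), ‖tau b g G k w - 1‖ ≤ 1 / 100 := fun w hw =>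
    ((hbd w hw k le_rfl).1).trans (by norm_num)
  obtain ⟨D, hD⟩ : ∃ D : Set ℂ, D = ball ((y : ℂ) * I) (ρ₁ / 2) := ⟨_, rfl⟩
  have hDo : IsOpen D := by rw [hD]; exact isOpen_ball
  have hDc : Convex ℝ D := by rw [hD]; exact convex_ball _ _
  have hDr : D ⊆ ball ((y : ℂ) * I) r := by rw [hD]; exact hD2
  obtain ⟨σ, hσd, hσ⟩ := ROT_sqrt D (tau b g G k) hDo ((hτd k le_rfl).mono hDr)
    (by rw [hD]; exact hτ1)
  have hσ1 : ∀ w ∈ D, ‖σ w - 1‖ ≤ 1 / 10 ^ 5 := fun w hw =>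
    ((hσ w hw).2).trans ((hbd w (by rw [← hD]; exact hw) k le_rfl).1)
  -- the base point
  obtain ⟨w₀, hw₀⟩ : ∃ w₀ : ℂ, w₀ = x - (ρ₁ / 4 : ℝ) := ⟨_, rfl⟩
  have hxre : x.re = 0 := by simp [hx]
  have hw₀re : w₀.re = -(ρ₁ / 4) := by
    rw [hw₀, sub_re, hxre, ofReal_re]; ring
  have hw₀D : w₀ ∈ D := by
    rw [hD, mem_ball, dist_eq_norm, hw₀, ← hx]
    rw [show x - ((ρ₁ / 4 : ℝ) : ℂ) - x = -((ρ₁ / 4 : ℝ) : ℂ) by ring, norm_neg, Complex.norm_real,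
      Real.norm_of_nonneg (by positivity)]
    linarith
  have hex : Complex.IsExactOn σ D := by
    rw [hD] at hσd ⊢
    exact hσd.isExactOn_ball
  obtain ⟨Φ, hΦ0, hΦd⟩ := hex.with_val_at w₀ (w₀ - Complex.log (rho n b) + P (Complex.exp w₀))
  -- agreement
  have hHPo : ∀ a : ℝ, IsOpen (HP a) := fun a => isOpen_lt continuous_re continuous_const
  have hHPc : ∀ a : ℝ, Convex ℝ (HP a) := fun a => convex_halfSpace_re_lt _
  have hUo : IsOpen (D ∩ HP (4 * δ)) := hDo.inter (hHPo _)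
  have hUc : Convex ℝ (D ∩ HP (4 * δ)) := hDc.inter (hHPc _)
  have hw₀H : w₀ ∈ HP (4 * δ) := by
    show w₀.re < _
    rw [hw₀re, hδ]
    linarith
  have hw₀U : w₀ ∈ D ∩ HP (4 * δ) := ⟨hw₀D, hw₀H⟩
  have hexp : ∀ w ∈ HP (4 * δ), Complex.exp w ∈ ball (0 : ℂ) (Real.exp (-(4 * δ))) := by
    intro w hw
    rw [mem_ball_zero_iff, Complex.norm_exp]
    exact Real.exp_lt_exp.2 hw
  have htau : ∀ w ∈ D ∩ HP (4 * δ), tau b g G k w = tau b g (GW G1) k w := by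
    intro w hw
    have hev : G k =ᶠ[𝓝 w] GW G1 k := by
      refine Filter.eventuallyEq_of_mem (hUo.mem_nhds hw) fun z hz => ?_
      refine hagree k le_rfl z (hDr hz.1) ?_
      have h1 : z.re < -(4 * δ) := hz.2
      rw [← hδ]
      linarith
    unfold tau
    rw [hev.deriv_eq, hev.eq_of_nhds]
  have hΦ₁ : ∀ w ∈ HP (4 * δ), HasDerivAt (fun w => w - Complex.log (rho n b) + P (Complex.exp w))
      (1 + Complex.exp w * deriv P (Complex.exp w)) w := by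
    intro w hw
    have h1 : HasDerivAt P (deriv P (Complex.exp w)) (Complex.exp w) :=
      (pd.differentiableAt (isOpen_ball.mem_nhds (hexp w hw))).hasDerivAt
    have h2 : HasDerivAt (fun w => P (Complex.exp w)) (deriv P (Complex.exp w) * Complex.exp w) w :=
      h1.comp w (Complex.hasDerivAt_exp w)
    have h3 := ((hasDerivAt_id w).sub_const (Complex.log (rho n b))).add h2
    rw [mul_comm (deriv P (Complex.exp w))] at h3
    exact h3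
  have hsame : EqOn Φ (fun w => w - Complex.log (rho n b) + P (Complex.exp w)) (D ∩ HP (4 * δ)) := by
    refine hUo.eqOn_of_deriv_eq hUc.isPreconnected
      (fun w hw => (hΦd w hw.1).differentiableAt.differentiableWithinAt)
      (fun w hw => (hΦ₁ w hw.2).differentiableAt.differentiableWithinAt) ?_ hw₀U hΦ0
    intro w hw
    show deriv Φ w = deriv (fun w => w - Complex.log (rho n b) + P (Complex.exp w)) w
    rw [(hΦd w hw.1).deriv, (hΦ₁ w hw.2).deriv]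
    have h4 : σ w ^ 2 = (1 + Complex.exp w * deriv P (Complex.exp w)) ^ 2 := by
      rw [(hσ w hw.1).1, pt w hw.2, htau w hw]
    rcases sq_eq_sq_iff_eq_or_eq_neg.1 h4 with h5 | h5
    · exact h5
    · exfalso
      have h6 := hσ1 w hw.1
      have h8 := (pb _ (hexp w hw.2)).2
      have h7 : ‖(-2 : ℂ)‖ ≤ 1 / 10 ^ 5 + 1 / 4 := by
        calc ‖(-2 : ℂ)‖ = ‖(σ w - 1) + Complex.exp w * deriv P (Complex.exp w)‖ := by
              rw [h5]; congr 1; ring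
          _ ≤ ‖σ w - 1‖ + ‖Complex.exp w * deriv P (Complex.exp w)‖ := norm_add_le _ _
          _ ≤ _ := add_le_add h6 h8
      rw [norm_neg] at h7
      norm_num at h7
  -- the bound
  have hE : ∀ w ∈ D, ‖Φ w - (w - Complex.log (rho n b))‖ ≤ ρ₁ / 1000 := by
    intro w hw
    have hd : ∀ w ∈ D, DifferentiableAt ℂ (fun w => Φ w - w) w := fun w hw =>
      (hΦd w hw).differentiableAt.sub differentiableAt_id
    have hbd' : ∀ w ∈ D, ‖deriv (fun w => Φ w - w) w‖ ≤ 1 / 10 ^ 5 := by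
      intro w hw
      have : deriv (fun w => Φ w - w) w = σ w - 1 := ((hΦd w hw).sub (hasDerivAt_id w)).deriv
      rw [this]
      exact hσ1 w hw
    have h1 := Convex.norm_image_sub_le_of_norm_deriv_le hd hbd' hDc hw₀D hw
    have h2 : ‖Φ w₀ - (w₀ - Complex.log (rho n b))‖ ≤ δ / 32 := by
      rw [hΦ0, add_sub_cancel_left]
      exact (pb _ (hexp w₀ hw₀H)).1
    have h3 : ‖w - w₀‖ ≤ 3 * ρ₁ / 4 := by
      rw [hD, mem_ball, dist_eq_norm, ← hx] at hw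
      calc ‖w - w₀‖ = ‖(w - x) + ((ρ₁ / 4 : ℝ) : ℂ)‖ := by rw [hw₀]; congr 1; ring
        _ ≤ ‖w - x‖ + ‖((ρ₁ / 4 : ℝ) : ℂ)‖ := norm_add_le _ _
        _ ≤ ρ₁ / 2 + ρ₁ / 4 := by
          rw [Complex.norm_real, Real.norm_of_nonneg (by positivity)]
          linarith
        _ = _ := by ring
    calc ‖Φ w - (w - Complex.log (rho n b))‖
        = ‖(Φ w - w - (Φ w₀ - w₀)) + (Φ w₀ - (w₀ - Complex.log (rho n b)))‖ := by congr 1; ring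
      _ ≤ ‖Φ w - w - (Φ w₀ - w₀)‖ + ‖Φ w₀ - (w₀ - Complex.log (rho n b))‖ := norm_add_le _ _
      _ ≤ 1 / 10 ^ 5 * (3 * ρ₁ / 4) + δ / 32 := by
        refine add_le_add (h1.trans ?_) h2
        gcongr
      _ ≤ ρ₁ / 1000 := by rw [hδ]; linarith
  refine ⟨G, Φ, ⟨DYE_ls_mono hLSk (ball_subset_ball hr34.le), hsys.g0, ?_, ?_, ?_, ?_, ?_⟩⟩
  · intro q hq w hw hwre
    exact hagree q hq w (ball_subset_ball hr34.le hw) hwre
  · intro w hw q hq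
    obtain ⟨h1, h2⟩ := hbd w hw q hq
    exact ⟨h1.trans (by norm_num), fun h => (h2 h).trans (by norm_num)⟩
  · rw [← hD]
    exact fun w hw => (hΦd w hw).differentiableAt.differentiableWithinAt
  · rw [← hD]
    exact hE
  · intro w hw hwre
    rw [← hD] at hw
    rw [← hδ] at hwre
    exact hsame ⟨hw, hwre⟩

theorem DYE_ps (hND : ND_stmt) (n k : ℕ) [NeZero k] (c : ℂ) (b g : ZMod k → ℂ)
    (ψ : ZMod k → ℂ → ℂ) (R ε : ℝ) (z : ℂ) (su : SU n k c b g ψ R ε) :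
    ∃ ps : ℕ, ∀ p : ℕ, 1 ≤ p → p < k → z ∈ ψ (-(p : ZMod k)) '' ball 0 1 → p = ps := by
  classical
  by_cases hex : ∃ p : ℕ, 1 ≤ p ∧ p < k ∧ z ∈ ψ (-(p : ZMod k)) '' ball 0 1
  · obtain ⟨ps, hp1, hp2, hp3⟩ := hex
    refine ⟨ps, fun p hq1 hq2 hq3 => ?_⟩
    by_contra hne
    have hne' : (-(p : ZMod k)) ≠ -(ps : ZMod k) := by
      intro h
      rw [neg_inj, ZMod.natCast_eq_natCast_iff'] at h
      rw [Nat.mod_eq_of_lt hq2, Nat.mod_eq_of_lt hp2] at h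
      exact hne h
    have hd := hND k b g _ _ (ψ (-(p : ZMod k))) (ψ (-(ps : ZMod k))) su.cyc.inj hne'
      (su.mx _) (su.mx _)
    exact Set.disjoint_left.mp hd hq3 hp3
  · exact ⟨0, fun p hq1 hq2 hq3 => absurd ⟨p, hq1, hq2, hq3⟩ hex⟩

theorem DYE (hND : ND_stmt) (hPH2 : PH2_stmt) (hP2A : P2A_stmt) (hPT2 : PT2_stmt)
    (hLEA : LEA_stmt) (hLEI : LEI_stmt) : DYE_stmt := by
  intro n k _ c b g ψ R ε ρ₁ i y H P X st cy fx hmp
  obtain ⟨b', hb'⟩ : ∃ b' : ZMod k → ℂ, b' = fun j => b (i + j) := ⟨_, rfl⟩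
  obtain ⟨g', hg'⟩ : ∃ g' : ZMod k → ℂ, g' = fun j => g (i + j) := ⟨_, rfl⟩
  obtain ⟨ψ', hψ'⟩ : ∃ ψ' : ZMod k → ℂ → ℂ, ψ' = fun j => ψ (i + j) := ⟨_, rfl⟩
  obtain ⟨su', hrho, -, -⟩ := TR n k c b g ψ R ε i st.su
  rw [← hb', ← hg', ← hψ'] at su'
  rw [← hb'] at hrho
  have hBB : BB b' g' = BB b g := by
    funext z
    rw [hb', hg']
    exact TR_BB k b g i z
  have her : er n c b' g' = er n c b g := by
    funext z
    rw [hb', hg']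
    exact TR_er n k c b g i z
  have hnat : ∀ (χ : ℂ → ℂ) (Ω : Set ℂ), IsNat b' g' χ Ω ↔ IsNat b g χ Ω := by
    intro χ Ω
    rw [hb', hg']
    exact TR_nat k b g i χ Ω
  have htau : ∀ G : ℕ → ℂ → ℂ, tau b' g' G = tau b g G := by
    intro G
    funext q w
    simp only [tau, hBB]
  have hlev : ∀ G : ℕ → ℂ → ℂ, lev n c b' g' G = lev n c b g G := by
    intro G
    funext q w
    simp only [lev, bet, eef, hBB, her]
  have hψ0 : ψ' 0 = ψ i := by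
    rw [hψ']
    simp
  obtain ⟨ps, hps⟩ := DYE_ps hND n k c b' g' ψ' R ε (X ((y : ℂ) * I + 6 * ρ₁)) su'
  have hρ : 0 < ρ₁ := st.r0
  have hε : ε ≤ ρ₁ ^ 2 / 4 ^ 200 := by
    refine st.he.trans ?_
    have h1 : ρ₁ ^ 3 ≤ ρ₁ ^ 2 := by
      have := st.r1
      nlinarith [sq_nonneg ρ₁, mul_nonneg (sq_nonneg ρ₁) (by linarith : (0 : ℝ) ≤ 1 - ρ₁)]
    exact div_le_div_of_nonneg_right h1 (by positivity)
  have su2 : SU2 n k c b' g' ψ' R ε y ρ₁ X H ps := by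
    refine ⟨su', st.r0, st.r1, (hnat _ _).2 fx.nat, ?_, ?_, hmp, ?_, hps⟩
    · rw [hψ0]
      exact fx.ext
    · rw [hψ0]
      exact st.mp i
    · rw [hψ0, hb']
      exact cy.s1
  obtain ⟨G, Φ, dy⟩ := DYE_core hPH2 hP2A hPT2 hLEA hLEI n k c b' g' ψ' R ε y ρ₁ X H ps P su2 hε
    cy.pd cy.pb (by
      rw [htau]
      exact cy.pt)
  refine ⟨G, Φ, ⟨⟨(hnat _ _).1 dy.ls.nat0, dy.ls.diff, dy.ls.rel⟩, dy.g0, dy.agr, ?_, dy.fdf, ?_,
    ?_⟩⟩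
  · have h := dy.good
    rw [htau, hlev] at h
    exact h
  · have h := dy.fno
    rw [hrho] at h
    exact h
  · have h := dy.fag
    rw [hrho] at h
    exact h

end MZS
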